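import Pool.Agent.U610.PC.Stm

set_option autoImplicit false

namespace Pool.Agent.U285.PC

open Polynomial Pool.Agent.U610.PC Pool.Agent.TH783.CE

theorem finite_roots (P : ℤ[X]) (hP : P ≠ 0) : {a : ℚ | aeval a P = 0}.Finite := by
  refine (Polynomial.rootSet_finite P ℚ).subset (fun a ha => ?_)
  exact Polynomial.mem_rootSet.2 ⟨hP, ha⟩

theorem aeval_q (P : ℤ[X]) (a : ℚ) : (aeval a P : ℚ) = (q P).eval a := by
  rw [q, Polynomial.eval_map, Polynomial.aeval_def]
  rfl

theorem t_RK2 : S_RK2 := by
  intro n hn D hD
  obtain rfl | rfl | rfl : n = 0 ∨ n = 1 ∨ n = 2 := by omega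
  · left
    refine Thin.of_finite ?_
    refine Set.Finite.subset Set.finite_empty ?_
    rintro a ⟨y, hy, _⟩
    exact absurd (Subsingleton.elim y 0) hy
  · left
    refine Thin.of_finite ?_
    refine (finite_roots (D 0) (hD 0)).subset ?_
    rintro a ⟨y, hy, hs⟩
    rw [Fin.sum_univ_one] at hs
    have hy0 : y 0 ≠ 0 := by
      intro h
      apply hy
      funext i
      rw [Subsingleton.elim i 0, h]
      rfl
    exact (mul_eq_zero.1 hs).resolve_right (pow_ne_zero 2 hy0)
  · by_cases hsq : ∃ g : ℚ[X], -(q (D 0) * q (D 1)) = g ^ 2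
    · right
      obtain ⟨g, hg⟩ := hsq
      refine (finite_roots (D 0) (hD 0)).subset ?_
      intro a ha
      by_contra h0
      apply ha
      have h0' : (aeval a (D 0) : ℚ) ≠ 0 := h0
      refine ⟨![g.eval a, (aeval a (D 0) : ℚ)], ?_, ?_⟩
      · intro h
        apply h0'
        have := congrFun h 1
        simpa using this
      · rw [Fin.sum_univ_two]
        have h1 := congrArg (Polynomial.eval a) hg
        rw [eval_neg, eval_mul, eval_pow, ← aeval_q, ← aeval_q] at h1
        simp only [Matrix.cons_val_zero, Matrix.cons_val_one]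
        linear_combination (-(aeval a (D 0) : ℚ)) * h1
    · left
      refine ⟨{a : ℚ | aeval a (D 0) = 0} ∪ {a : ℚ | aeval a (D 1) = 0},
        (finite_roots _ (hD 0)).union (finite_roots _ (hD 1)),
        X ^ 2 - C (-(q (D 0) * q (D 1))), monic_X_pow_sub_C _ two_ne_zero, ?_, ?_⟩
      · intro g hg
        apply hsq
        refine ⟨g, ?_⟩
        rw [eval_sub, eval_pow, eval_X, eval_C] at hg
        exact (sub_eq_zero.1 hg).symm
      · rintro t ⟨y, hy, hs⟩
        by_cases h0 : (aeval t (D 0) : ℚ) = 0
        · exact Or.inl (Or.inl h0)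
        by_cases h1 : (aeval t (D 1) : ℚ) = 0
        · exact Or.inl (Or.inr h1)
        right
        rw [Fin.sum_univ_two] at hs
        have hy1 : y 1 ≠ 0 := by
          intro h
          apply hy
          rw [h] at hs
          have h2 : (aeval t (D 0) : ℚ) * y 0 ^ 2 = 0 := by linear_combination hs
          have h3 : y 0 = 0 := by
            rcases mul_eq_zero.1 h2 with h4 | h4
            · exact absurd h4 h0
            · exact pow_eq_zero_iff (two_ne_zero) |>.1 h4
          funext i
          fin_cases i
          · exact h3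
          · exact h
        refine ⟨(aeval t (D 0) : ℚ) * y 0 / y 1, ?_⟩
        rw [evalEval, eval_sub, eval_pow, eval_X, eval_C, eval_sub, eval_pow, eval_C, eval_neg,
          eval_mul, ← aeval_q, ← aeval_q]
        field_simp
        linear_combination (aeval t (D 0) : ℚ) * hs

end Pool.Agent.U285.PC
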